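import Pool.Agent.L5helper98.CG.Defs

/-!
# The model kernel is positive semidefinite
-/

set_option autoImplicit false

namespace Pool.Agent.L5helper49.CG

open Pool.Agent.L5helper98.CG

/-- the window of length `k` ending at `y` -/
private noncomputable def win (N k y : ℕ) : Fin N → ℝ := fun i => if (i : ℕ) ≤ y ∧ y < i + k then 1 else 0

private lemma sum_win (N k : ℕ) (i j : Fin N) :
    ∑ y ∈ Finset.range (N + k), win N k y i * win N k y j =
      ((k - Nat.dist (i : ℕ) (j : ℕ) : ℕ) : ℝ) := by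
  have h1 : ∀ y ∈ Finset.range (N + k), win N k y i * win N k y j =
      if y ∈ Finset.Ico (max (i : ℕ) j) (min (i : ℕ) j + k) then 1 else 0 := by
    intro y _
    simp only [win, Finset.mem_Ico]
    by_cases h2 : (i : ℕ) ≤ y ∧ y < i + k
    · by_cases h3 : (j : ℕ) ≤ y ∧ y < j + k
      · have h4 : max (i : ℕ) j ≤ y ∧ y < min (i : ℕ) j + k := by omega
        rw [if_pos h2, if_pos h3, if_pos h4, mul_one]
      · have h4 : ¬ (max (i : ℕ) j ≤ y ∧ y < min (i : ℕ) j + k) := by omega
        rw [if_neg h3, if_neg h4, mul_zero]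
    · have h4 : ¬ (max (i : ℕ) j ≤ y ∧ y < min (i : ℕ) j + k) := by omega
      rw [if_neg h2, if_neg h4, zero_mul]
  rw [Finset.sum_congr rfl h1, Finset.sum_ite_mem, Finset.sum_const, nsmul_eq_mul, mul_one]
  have h2 : Finset.range (N + k) ∩ Finset.Ico (max (i : ℕ) j) (min (i : ℕ) j + k) =
      Finset.Ico (max (i : ℕ) j) (min (i : ℕ) j + k) := by
    apply Finset.inter_eq_right.2
    intro y hy
    rw [Finset.mem_Ico] at hy
    rw [Finset.mem_range]
    have := i.2
    have := j.2
    omega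
  rw [h2, Nat.card_Ico]
  congr 1
  unfold Nat.dist
  omega

private lemma kap_eq (m : ℝ) (n j : ℕ) :
    kap m n j = ∑ k ∈ Finset.Icc 1 n, m / (k : ℝ) ^ 2 * ((k - j : ℕ) : ℝ) := by
  rw [kap, Finset.mul_sum]
  have h1 : Finset.Ioc j n ⊆ Finset.Icc 1 n := by
    intro k hk
    rw [Finset.mem_Ioc] at hk
    rw [Finset.mem_Icc]
    omega
  rw [← Finset.sum_subset h1 (fun k hk hk' => ?_)]
  · refine Finset.sum_congr rfl fun k hk => ?_
    rw [Finset.mem_Ioc] at hk
    rw [Nat.cast_sub hk.1.le]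
    ring
  · rw [Finset.mem_Icc] at hk
    rw [Finset.mem_Ioc] at hk'
    rw [Nat.sub_eq_zero_of_le (by omega), Nat.cast_zero, mul_zero]

theorem KPSD_holds : St_KPSD := by
  intro m n N hm
  have h : Kap m n N = ∑ k ∈ Finset.Icc 1 n, ∑ y ∈ Finset.range (N + k),
      (m / (k : ℝ) ^ 2) • Matrix.vecMulVec (win N k y) (star (win N k y)) := by
    ext i j
    rw [Matrix.sum_apply]
    simp only [Matrix.sum_apply, Matrix.smul_apply, Matrix.vecMulVec_apply, star_trivial,
      smul_eq_mul]
    rw [Kap, kap_eq]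
    refine Finset.sum_congr rfl fun k _ => ?_
    rw [← Finset.mul_sum, sum_win]
  rw [h]
  refine Matrix.posSemidef_sum _ fun k _ => Matrix.posSemidef_sum _ fun y _ => ?_
  exact (Matrix.posSemidef_vecMulVec_self_star _).smul (by positivity)

end Pool.Agent.L5helper49.CG
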